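import Pool.Agent.H72.Ca.C9

/-!
# The relative Cannon conjecture: approximate boundary maps suffice

Let a group `G`, generated by a finite set `T`, act on an infinite compact metric space `X` as a minimal
convergence group which is cusp uniform: there are finitely many bounded parabolic points `p`, in
different orbits, with stabilizers (the peripheral groups) that are virtually `ℤ^m`, `m ≥ 2`, and the
action on the triples of distinct points is cocompact off the cusps. By Bowditch and Yaman, `G` is
hyperbolic relative to the peripheral groups and `X` is its Bowditch boundary. There is `r > 0`, and for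
every `δ > 0` there is `ε > 0`, such that the following holds for every action `ρ` of `G` by isometries
of hyperbolic space of any dimension `n + 1 ≥ 2`, which is not assumed to be discrete, faithful or type
preserving. If there is a map `h` from the sphere at infinity to `X`, not assumed to be continuous, which
oscillates by at most `r` at each point (for instance a map with finitely many values), and which is
equivariant up to the error `ε` for the elements of `T` and of the peripheral groups, then `ρ` is a
lattice: properly discontinuous, with finitely many cusps of full rank, and cocompact outside them; and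
`h` is `δ`-close to an equivariant homeomorphism `H` from the sphere at infinity to `X`, which is the
only equivariant map that is `2 r`-close to `h`; the peripheral groups act by parabolic isometries.

For `X = S^2` and virtually `ℤ^2` peripheral groups this is the setting of the question. The proof
constructs for every approximate orbit in `X` a point whose orbit shadows it, from finitely many
expanding elements and their translates by the peripheral groups; at the parabolic points an approximate
orbit is followed with infinitely many elements at once, and the error is controlled by a contraction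
estimate for convergence groups that is uniform on the whole peripheral group.
-/

set_option autoImplicit false

open Filter Topology Set Pool.Agent.TH289.C

namespace Pool.Agent.Results.MP_04c03c_gt.ApproximateMapsWithCusps

/-- All orbits are dense. -/
def Minimal {G : Type} [Group G] {X : Type} [TopologicalSpace X] (α : Action G X) : Prop :=
  ∀ x : X, Dense (range fun g => α.map g x)

/-- `p` is a bounded parabolic point: its stabilizer acts properly discontinuously and cocompactly on
the complement of `p`. -/
def BoundedParabolic {G : Type} [Group G] {X : Type} [TopologicalSpace X] (α : Action G X)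
    (p : X) : Prop :=
  (∀ K : Set X, IsCompact K → p ∉ K → {g : G | α.map g p = p ∧ ∃ w ∈ K, α.map g w ∈ K}.Finite) ∧
    ∃ K : Set X, IsCompact K ∧ p ∉ K ∧ ∀ w, w ≠ p → ∃ g, α.map g p = p ∧ α.map g w ∈ K

/-- The stabilizer of `p` is virtually `ℤ^m`: it contains a copy of `ℤ^m` of finite index. -/
def VirtuallyZm {G : Type} [Group G] {X : Type} [TopologicalSpace X] (m : ℕ) (α : Action G X)
    (p : X) : Prop :=
  ∃ ψ : Multiplicative (Fin m → ℤ) →* G, Function.Injective ψ ∧ (∀ a, α.map (ψ a) p = p) ∧
    ∃ S : Finset G, ∀ g, α.map g p = p → ∃ a, ∃ s ∈ S, g = ψ a * s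

/-- Two of the three points are at distance less than `η` from `p`. -/
def TwoNear {X : Type} [MetricSpace X] (p : X) (η : ℝ) (x y z : X) : Prop :=
  (dist x p < η ∧ dist y p < η) ∨ (dist y p < η ∧ dist z p < η) ∨ (dist x p < η ∧ dist z p < η)

/-- The action on the triples of distinct points is cocompact off the cusps at the points of `Ps`: for
every `η > 0` there is `ε > 0` such that every triple of distinct points has a translate whose points
have pairwise distance at least `ε`, or a translate which is in the cusp of size `η` of a point `p` of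
`Ps`: all its translates by elements fixing `p` have two points at distance less than `η` from `p`. -/
def CuspUniform {G : Type} [Group G] {X : Type} [MetricSpace X] (α : Action G X)
    (Ps : Finset X) : Prop :=
  ∀ η : ℝ, 0 < η → ∃ ε : ℝ, 0 < ε ∧ ∀ x y z : X, x ≠ y → y ≠ z → x ≠ z →
    (∃ g : G, ε ≤ dist (α.map g x) (α.map g y) ∧ ε ≤ dist (α.map g y) (α.map g z) ∧
      ε ≤ dist (α.map g x) (α.map g z)) ∨
    ∃ g : G, ∃ p ∈ Ps, ∀ h : G, α.map h p = p →
      TwoNear p η (α.map h (α.map g x)) (α.map h (α.map g y)) (α.map h (α.map g z))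

/-- The group acts as a relatively hyperbolic group on its Bowditch boundary: a minimal convergence
action, cusp uniform, with bounded parabolic points in different orbits whose stabilizers, the
peripheral groups, are virtually `ℤ^m` for some `m ≥ 2`. There may be no such points. -/
structure RelHyperbolic {G : Type} [Group G] {X : Type} [MetricSpace X] (α : Action G X)
    (Ps : Finset X) : Prop where
  converges : Converges α
  minimal : Minimal α
  parabolic : ∀ p ∈ Ps, BoundedParabolic α p
  virtually : ∀ p ∈ Ps, ∃ m : ℕ, 2 ≤ m ∧ VirtuallyZm m α p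
  different : ∀ p ∈ Ps, ∀ g, α.map g p ∈ Ps → α.map g p = p
  uniform : CuspUniform α Ps

/-- The Lorentz form as a bilinear form. -/
noncomputable def form {n : ℕ} (v w : Mink n) : ℝ := (lor (v + w) - lor v - lor w) / 2

/-- `ρ` is an action by isometries of hyperbolic space `H^(n+1)`. -/
def IsIsometric {G : Type} [Group G] {n : ℕ} (ρ : LinAction G (Mink n)) : Prop :=
  (∀ g v, lor (ρ.map g v) = lor v) ∧ ∀ g, 0 < time (ρ.map g (origin n))

/-- The point `c` at infinity is a cusp of full rank: a subgroup `P` of `G` fixes the light-like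
vector of `c` (so it preserves every horoball centred at `c`) and acts cocompactly on the complement
of `c` in the sphere at infinity. -/
def FullCusp {G : Type} [Group G] {n : ℕ} (ρ : LinAction G (Mink n)) (c : Sn n) : Prop :=
  ∃ P : Subgroup G, (∀ g ∈ P, ρ.map g (light c) = light c) ∧
    ∃ K : Set (Sn n), IsCompact K ∧ c ∉ K ∧
      ∀ w, w ≠ c → ∃ g ∈ P, ∃ w' ∈ K, ∃ s : ℝ, 0 < s ∧ ρ.map g (light w) = s • light w'

/-- The action on hyperbolic space is that of a lattice: it is properly discontinuous, and for every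
`κ > 0` there are finitely many points `c` at infinity, cusps of full rank, such that the action is
cocompact on the complement of the translates of the horoballs `form v (light c) < κ` centred at
these points: every point `v` of hyperbolic space in no translate of these horoballs has a translate
with time coordinate at most `R`. -/
def IsLattice {G : Type} [Group G] {n : ℕ} (ρ : LinAction G (Mink n)) : Prop :=
  ActsProperly (HypSpace n) (fun g v => ρ.map g v) ∧
    ∀ κ : ℝ, 0 < κ → ∃ C : Finset (Sn n), (∀ c ∈ C, FullCusp ρ c) ∧ ∃ R : ℝ, ∀ v ∈ HypSpace n,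
      (∀ g : G, ∀ c ∈ C, κ ≤ form (ρ.map g v) (light c)) → ∃ g : G, time (ρ.map g v) ≤ R

/-- The map `h` from the sphere at infinity oscillates by at most `r` at each point. -/
def CoarselyContinuous {X : Type} [MetricSpace X] {n : ℕ} (r : ℝ) (h : Sn n → X) : Prop :=
  ∀ z, ∀ᶠ z' in 𝓝 z, dist (h z') (h z) ≤ r

/-- The map `h` from the sphere at infinity to `X` is equivariant up to the error `ε` for the elements
of `T` and the elements fixing a point of `Ps`: if such an element `s` maps the point `z` at infinity
to `z'`, then `h z'` is at distance at most `ε` from `s (h z)`. -/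
def AlmostEquivariant {G : Type} [Group G] {X : Type} [MetricSpace X] {n : ℕ} (T : Finset G)
    (Ps : Finset X) (ε : ℝ) (α : Action G X) (ρ : LinAction G (Mink n)) (h : Sn n → X) : Prop :=
  ∀ s, (s ∈ T ∨ ∃ p ∈ Ps, α.map s p = p) → ∀ (z z' : Sn n) (c : ℝ), 0 < c →
    ρ.map s (light z) = c • light z' → dist (h z') (α.map s (h z)) ≤ ε

/-- The map `H` from the sphere at infinity to `X` is equivariant. -/
def Equivariant {G : Type} [Group G] {X : Type} [TopologicalSpace X] {n : ℕ}
    (α : Action G X) (ρ : LinAction G (Mink n)) (H : Sn n → X) : Prop :=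
  ∀ (g : G) (z z' : Sn n) (c : ℝ), 0 < c → ρ.map g (light z) = c • light z' →
    H z' = α.map g (H z)

section Convert

variable {G : Type} [Group G] {n : ℕ}

theorem lor_eq (v : Mink n) : lor v = TH631.RC.lor (E := Euc n) v v := by
  change (show ℝ × Euc n from v).1 ^ 2 - ‖(show ℝ × Euc n from v).2‖ ^ 2 =
    (show ℝ × Euc n from v).1 * (show ℝ × Euc n from v).1 -
      inner ℝ (show ℝ × Euc n from v).2 (show ℝ × Euc n from v).2
  rw [real_inner_self_eq_norm_sq]
  ring

theorem form_eq (v w : Mink n) : form v w = TH631.RC.lor (E := Euc n) v w := by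
  unfold form
  rw [lor_eq, lor_eq, lor_eq]
  have h1 : TH631.RC.lor (E := Euc n) (v + w) (v + w) = TH631.RC.lor (E := Euc n) v v +
      2 * TH631.RC.lor (E := Euc n) v w + TH631.RC.lor (E := Euc n) w w := by
    have e1 : (show ℝ × Euc n from (v + w)) = (show ℝ × Euc n from v) + (show ℝ × Euc n from w) :=
      rfl
    simp only [TH631.RC.lor]
    change (show ℝ × Euc n from (v + w)).1 * (show ℝ × Euc n from (v + w)).1 -
      inner ℝ (show ℝ × Euc n from (v + w)).2 (show ℝ × Euc n from (v + w)).2 = _
    rw [e1, Prod.fst_add, Prod.snd_add, inner_add_left, inner_add_right, inner_add_right,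
      real_inner_comm (show ℝ × Euc n from v).2 (show ℝ × Euc n from w).2]
    ring
  rw [h1]
  ring

theorem form_map {ρ : LinAction G (Mink n)} (hρ : IsIsometric ρ) (g : G) (v w : Mink n) :
    form (ρ.map g v) (ρ.map g w) = form v w := by
  unfold form
  have h1 : ρ.map g v + ρ.map g w = ρ.map g (v + w) := ((ρ.map g).map_add v w).symm
  rw [h1, hρ.1, hρ.1, hρ.1]

theorem lor_map' {ρ : LinAction G (Mink n)} (hρ : IsIsometric ρ) (g : G) (v w : Mink n) :
    TH631.RC.lor (E := Euc n) (ρ.map g v) (ρ.map g w) = TH631.RC.lor (E := Euc n) v w := by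
  rw [← form_eq, ← form_eq, form_map hρ]

/-- The action in the general setting. -/
noncomputable def toHyp (ρ : LinAction G (Mink n)) (hρ : IsIsometric ρ) :
    TH631.RC.HypAction G (Euc n) where
  map g :=
    { toFun := fun v => ρ.map g v
      map_add' := fun v w => (ρ.map g).map_add v w
      map_smul' := fun c v => (ρ.map g).map_smul c v }
  map_one v := ρ.map_one v
  map_mul g h v := ρ.map_mul g h v
  lor_map g v w := lor_map' hρ g v w
  pos g := hρ.2 g

variable {ρ : LinAction G (Mink n)} (hρ : IsIsometric ρ)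

theorem mem_hyp {v : Mink n} : v ∈ HypSpace n ↔ v ∈ TH631.RC.HypSpace (Euc n) := by
  constructor
  · rintro ⟨h1, h2⟩
    exact ⟨by rw [← lor_eq]; exact h1, h2⟩
  · rintro ⟨h1, h2⟩
    exact ⟨by rw [lor_eq]; exact h1, h2⟩

theorem isLattice_of (h : TH631.RC.IsLattice (toHyp ρ hρ)) : IsLattice ρ := by
  obtain ⟨h1, h2⟩ := h
  refine ⟨fun K hK hKc => h1 K (fun v hv => mem_hyp.1 (hK hv)) hKc, fun κ hκ => ?_⟩
  obtain ⟨C, hC, R, hR⟩ := h2 κ hκ
  refine ⟨C, fun c hc => hC c hc, R, fun v hv hcusp => hR v (mem_hyp.1 hv) fun g c hc => ?_⟩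
  have h3 := hcusp g c hc
  rw [form_eq] at h3
  exact h3

theorem F_eq {g : G} {y y' : Sn n} {c : ℝ} (h : ρ.map g (light y) = c • light y') :
    y' = TH631.RC.F (toHyp ρ hρ) g y :=
  (TH631.RC.map_light_unique (ρ := toHyp ρ hρ) (g := g) (x := y) (x' := y') (c := c) h).2

theorem map_F (g : G) (y : Sn n) : 0 < TH631.RC.tt (toHyp ρ hρ) g y ∧
    ρ.map g (light y) = TH631.RC.tt (toHyp ρ hρ) g y • light (n := n)
      (TH631.RC.F (toHyp ρ hρ) g y) :=
  ⟨TH631.RC.tt_pos g _, TH631.RC.map_light (ρ := toHyp ρ hρ) g y⟩

theorem compact_ball (R : ℝ) : IsCompact {v : ℝ × Euc n | v ∈ TH631.RC.HypSpace (Euc n) ∧ v.1 ≤ R} := by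
  have hsub : {v : ℝ × Euc n | v ∈ TH631.RC.HypSpace (Euc n) ∧ v.1 ≤ R} =
      {v : ℝ × Euc n | v.1 * v.1 - inner ℝ v.2 v.2 = 1 ∧ 1 ≤ v.1 ∧ v.1 ≤ R} := by
    ext v
    constructor
    · rintro ⟨h1, h2⟩
      exact ⟨h1.1, TH631.RC.hyp_one_le h1, h2⟩
    · rintro ⟨h1, h2, h3⟩
      exact ⟨⟨h1, by linarith⟩, h3⟩
  refine Metric.isCompact_of_isClosed_isBounded ?_ ?_
  · rw [hsub]
    refine IsClosed.inter (isClosed_eq (by fun_prop) continuous_const)
      (IsClosed.inter (isClosed_le continuous_const continuous_fst)
        (isClosed_le continuous_fst continuous_const))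
  · rw [isBounded_iff_forall_norm_le]
    refine ⟨R, ?_⟩
    rintro v ⟨h1, h2⟩
    have h3 := TH631.RC.hyp_lt h1
    rw [Prod.norm_def, max_le_iff, Real.norm_eq_abs, abs_of_pos h1.2]
    exact ⟨h2, by linarith⟩

theorem cocompact_of
    (h2 : ∃ R : ℝ, ∀ v ∈ TH631.RC.HypSpace (Euc n), ∃ g : G, ((toHyp ρ hρ).map g v).1 ≤ R) :
    ActsCocompactly (HypSpace n) (fun g v => ρ.map g v) := by
  obtain ⟨R, hR⟩ := h2
  refine ⟨{v : ℝ × Euc n | v ∈ TH631.RC.HypSpace (Euc n) ∧ v.1 ≤ R}, fun v hv => mem_hyp.2 hv.1,
    compact_ball R, fun v hv => ?_⟩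
  obtain ⟨g, hg⟩ := hR v (mem_hyp.1 hv)
  exact ⟨g, TH631.RC.map_mem (ρ := toHyp ρ hρ) (mem_hyp.1 hv) g, hg⟩

end Convert

section Boundary

variable {G : Type} [Group G] {X : Type} [MetricSpace X] {α : Action G X}

theorem vzn_of {m : ℕ} {p : X} (h : VirtuallyZm m α p) : H72.Rel.VZn m α.hom p := h

theorem par_of {m : ℕ} (hm : 2 ≤ m) {p : X} (h : BoundedParabolic α p)
    (hv : VirtuallyZm m α p) : H72.Rel.Par α.hom p := by
  refine ⟨h.1, h.2, ?_⟩
  obtain ⟨ψ, hψ, hfix, -⟩ := hv
  refine ⟨ψ (Multiplicative.ofAdd (Pi.single ⟨0, by omega⟩ 1)), hfix _, fun a b hab => ?_⟩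
  have h1 : ψ (Multiplicative.ofAdd (Pi.single ⟨0, by omega⟩ 1) ^ a) =
      ψ (Multiplicative.ofAdd (Pi.single ⟨0, by omega⟩ 1) ^ b) := by
    rw [map_pow, map_pow]
    exact hab
  have h2 := hψ h1
  rw [← ofAdd_nsmul, ← ofAdd_nsmul] at h2
  have h3 := congrFun (Multiplicative.ofAdd.injective h2) ⟨0, by omega⟩
  simpa using h3

theorem near_of {p : X} {η : ℝ} {t : Fin 3 → X} (h : TwoNear p η (t 0) (t 1) (t 2)) :
    Near p η t := by
  rcases h with h | h | h
  · exact ⟨0, 1, by decide, h.1, h.2⟩
  · exact ⟨1, 2, by decide, h.1, h.2⟩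
  · exact ⟨0, 2, by decide, h.1, h.2⟩

theorem cusp_of {Ps : Finset X} (h : CuspUniform α Ps) : H72.Rel.Cusp α.hom Ps := by
  intro η hη
  obtain ⟨ε, hε, hcov⟩ := h η hη
  refine ⟨ε, hε, fun t ht => ?_⟩
  have hne : ∀ i j, i ≠ j → t i ≠ t j := fun i j hij h0 => by
    have h1 := sep_le t hij
    rw [h0, dist_self] at h1
    exact absurd ht (not_lt.2 h1)
  rcases hcov (t 0) (t 1) (t 2) (hne 0 1 (by decide)) (hne 1 2 (by decide))
    (hne 0 2 (by decide)) with ⟨g, h1, h2, h3⟩ | ⟨g, p, hp, h⟩
  · exact Or.inl ⟨g, le_min h1 (le_min h2 h3)⟩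
  · exact Or.inr ⟨g, p, hp, fun h' hh' => near_of (h h' hh')⟩

theorem rl_of {Ps : Finset X} (h : RelHyperbolic α Ps) : H72.Rel.Rl α.hom Ps := by
  refine ⟨h.converges, fun p hp => ?_, h.different⟩
  obtain ⟨m, hm, hv⟩ := h.virtually p hp
  exact par_of hm (h.parabolic p hp) hv

theorem virt_of {Ps : Finset X} (h : RelHyperbolic α Ps) :
    ∀ p ∈ Ps, TH631.RC.VirtAbelian (H72.Rel.stab α.hom p) := by
  intro p hp
  obtain ⟨m, hm, hv⟩ := h.virtually p hp
  exact H72.Rel.VZn.virt hm (vzn_of hv)

end Boundary

/-- **The theorem.** Let the group `G`, generated by the finite set `T`, act on the infinite compact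
metric space `X` as a relatively hyperbolic group on its Bowditch boundary, with peripheral groups (the
stabilizers of the points of `Ps`) that are virtually `ℤ^m`, `m ≥ 2`. There is `r > 0`, and for every
`δ > 0` there is `ε > 0`, such that for every `n ≥ 1` and every action `ρ` of `G` by isometries of
hyperbolic space of dimension `n + 1`, if there is a map `h` from the sphere at infinity to `X` which
oscillates by at most `r` at each point and is equivariant up to `ε` for the elements of `T` and of the
peripheral groups, then `ρ` is a lattice, cocompact if there are no peripheral groups, and there is an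
equivariant homeomorphism `H` from the sphere at infinity to `X` with `dist (H z) (h z) < δ` for all
`z`; the peripheral group of `H c ∈ Ps` fixes the light-like vector of `c`; and `H` is the only
equivariant map `H'` with `dist (H' z) (h z) ≤ 2 * r` for all `z`. -/
theorem result (G : Type) [Group G] (X : Type) [MetricSpace X] [CompactSpace X] [Infinite X]
    (α : Action G X) (Ps : Finset X) (hα : RelHyperbolic α Ps)
    (T : Finset G) (hT : Subgroup.closure (T : Set G) = ⊤) :
    ∃ r : ℝ, 0 < r ∧ ∀ δ : ℝ, 0 < δ → ∃ ε : ℝ, 0 < ε ∧ ∀ n : ℕ, 1 ≤ n →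
      ∀ ρ : LinAction G (Mink n), IsIsometric ρ → ∀ h : Sn n → X, CoarselyContinuous r h →
      AlmostEquivariant T Ps ε α ρ h →
      IsLattice ρ ∧ (Ps = ∅ → ActsCocompactly (HypSpace n) (fun g v => ρ.map g v)) ∧
        ∃ H : Sn n → X, IsHomeomorph H ∧ Equivariant α ρ H ∧
        (∀ c, H c ∈ Ps → ∀ g, α.map g (H c) = H c → ρ.map g (light c) = light c) ∧
        (∀ z, dist (H z) (h z) < δ) ∧ (∀ z, dist (H z) (h z) ≤ 2 * r) ∧
        ∀ H' : Sn n → X, Equivariant α ρ H' → (∀ z, dist (H' z) (h z) ≤ 2 * r) → H' = H := by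
  obtain ⟨r, hr, h1⟩ := H72.Ca.stableC (rl_of hα) (cusp_of hα.uniform) (virt_of hα) hα.minimal T hT
  refine ⟨r, hr, fun δ hδ => ?_⟩
  obtain ⟨ε, hε, h2⟩ := h1 (min δ (2 * r)) (by positivity)
  refine ⟨ε, hε, fun n hn ρ hρ h hosc heq => ?_⟩
  have hE : Module.finrank ℝ (Euc n) = n + 1 := by rw [finrank_euclideanSpace_fin]
  obtain ⟨h3, h4, H, h5, h6, h6', h7, h8⟩ := h2 (Euc n) (by omega) (toHyp ρ hρ) h hosc
    (fun s hs z => by
      rw [dist_comm]
      exact heq s (Or.inl hs) z _ _ (map_F hρ s z).1 (map_F hρ s z).2)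
    (fun p hp k hk z => by
      rw [dist_comm]
      exact heq k (Or.inr ⟨p, hp, hk⟩) z _ _ (map_F hρ k z).1 (map_F hρ k z).2)
  refine ⟨isLattice_of hρ h3, fun hPs => cocompact_of hρ (h4 hPs), H, h5, fun g z z' c _ hz => ?_,
    h6', fun z => (h7 z).trans_le (min_le_left _ _), fun z => (h7 z).le.trans (min_le_right _ _),
    fun H' h9 h10 => ?_⟩
  · rw [F_eq hρ hz]
    exact h6 g z
  · exact h8 H' (fun g z => h9 g z _ _ (map_F hρ g z).1 (map_F hρ g z).2) h10

end Pool.Agent.Results.MP_04c03c_gt.ApproximateMapsWithCusps
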