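import Pool.Agent.H72.Dj.T12
import Pool.Agent.H72.In.I13

/-!
# Disjointness of boundary actions, and Cannon's conjecture

Let `X` be a sphere `S^n`, `n ≥ 1`, and let `G` act on `X` as a minimal convergence group, cocompactly
on the triples of distinct points (by Bowditch, `G` is a hyperbolic group and `X` its boundary). Let
`ρ` be a linear action of `G` on a space `V` of dimension `n + 2`, which preserves a strictly convex
cone `C`, and `Ω = P(C)` (for instance `Ω` is hyperbolic space of dimension `n + 1`). The action `ρ` is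
not assumed to be discrete or faithful. Then
* either `G` divides `Ω`: it acts properly discontinuously and cocompactly; then every nonconstant
  continuous equivariant map from `X` to the boundary of `Ω`, and every continuous equivariant map
  from the boundary of `Ω` to `X`, is a homeomorphism;
* or `X` and `closure Ω` are disjoint in the sense of topological dynamics: every closed `G`-invariant
  subset of `X × closure Ω` is a product `X × Λ`; then every equivariant map from `X`, or from an
  invariant subset of `X` (for instance an orbit), to `closure Ω` which is continuous at one point is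
  constant, there is no continuous equivariant map from the boundary of `Ω` to `X`, and every finite
  family of elements of `G` is approximated, in the projective representation, by families in ping-pong
  position on `X`.

Hence, for any one infinite normal subgroup `N` of `G` (for instance `N = G`) and any one loxodromic
element `s` of `G`, the group divides `Ω` if and only if the free subgroups `⟨s, h s h⁻¹⟩`, `h ∈ N`, with
`s, h s h⁻¹` in ping-pong position on `X` act properly discontinuously on `Ω`; and, for any one pair of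
disjoint closed subsets `P`, `Q` of `X` with nonempty interior, which do not cover `X`, and any point
`o` of `Ω`, it divides `Ω` if and only if the displacement of `o` by the elements `g` of `N` with
`g (X ∖ Q) ⊆ P` (they are loxodromic) is bounded away from 0.
-/

set_option autoImplicit false

open Filter Topology Set Pool.Agent.TH289.C Pool.Agent.H72.Dj

namespace Pool.Agent.Results.MP_04c03c_gt.DisjointOrDivides

/-- All orbits are dense. -/
def Minimal {G : Type} [Group G] {X : Type} [TopologicalSpace X] (α : Action G X) : Prop :=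
  ∀ x : X, Dense (range fun g => α.map g x)

/-- `R` is a product `X × Λ`. -/
def IsProduct {X Z : Type} (R : Set (X × Z)) : Prop := ∃ Λ : Set Z, R = univ ×ˢ Λ

/-- The group divides the domain of the cone `C`: it acts properly discontinuously and cocompactly. -/
def DividesCone {G : Type} [Group G] {V : Type} [NormedAddCommGroup V] [NormedSpace ℝ V]
    (C : Set V) (τ : V →L[ℝ] ℝ) (ρ : LinAction G V) : Prop :=
  ActsProperly (Dom C τ) (projAct τ ρ) ∧ ActsCocompactly (Dom C τ) (projAct τ ρ)

/-- All closed invariant subsets of the product with the closed domain are products. -/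
def DisjointCone {G : Type} [Group G] {X : Type} [TopologicalSpace X] (α : Action G X) {V : Type}
    [NormedAddCommGroup V] [NormedSpace ℝ V] (C : Set V) (τ : V →L[ℝ] ℝ) (ρ : LinAction G V) :
    Prop :=
  ∀ R : Set (X × V), IsClosed R → (∀ x v, (x, v) ∈ R → v ∈ Kbar C τ) →
    (∀ g x v, (x, v) ∈ R → (α.map g x, projAct τ ρ g v) ∈ R) → IsProduct R

/-- The set `D` is invariant and the map `f` from `D` to the closed domain is equivariant (the values
of `f` at other points do not matter). -/
def EquivariantOn {G : Type} [Group G] {X : Type} [TopologicalSpace X] (α : Action G X) {V : Type}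
    [NormedAddCommGroup V] [NormedSpace ℝ V] (C : Set V) (τ : V →L[ℝ] ℝ) (ρ : LinAction G V)
    (D : Set X) (f : X → V) : Prop :=
  ∀ g, ∀ x ∈ D, α.map g x ∈ D ∧ f x ∈ Kbar C τ ∧ f (α.map g x) = projAct τ ρ g (f x)

/-- The map to the boundary of the domain is equivariant. -/
def EquivariantTo {G : Type} [Group G] {X : Type} [TopologicalSpace X] (α : Action G X) {V : Type}
    [NormedAddCommGroup V] [NormedSpace ℝ V] {C : Set V} {τ : V →L[ℝ] ℝ} (ρ : LinAction G V)
    (f : X → Bd C τ) : Prop :=
  ∀ g x, (f (α.map g x) : V) = projAct τ ρ g (f x)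

/-- The map from the boundary of the domain is equivariant. -/
def EquivariantFrom {G : Type} [Group G] {X : Type} [TopologicalSpace X] (α : Action G X) {V : Type}
    [NormedAddCommGroup V] [NormedSpace ℝ V] {C : Set V} {τ : V →L[ℝ] ℝ} (ρ : LinAction G V)
    (h : Bd C τ → X) : Prop :=
  ∀ g (v v' : Bd C τ), (v' : V) = projAct τ ρ g v → h v' = α.map g (h v)

/-- The elements `a i` are in ping-pong position on `X`: there are closed sets `P i` and `Q i`, pairwise
disjoint, which do not cover `X`, such that `a i` maps the complement of `Q i` into `P i`. For `m ≥ 2`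
the elements `a i` freely generate a free (Schottky) subgroup. -/
def PingPong {G : Type} [Group G] {X : Type} [TopologicalSpace X] (α : Action G X) {m : ℕ}
    (a : Fin m → G) : Prop :=
  ∃ P Q : Fin m → Set X, (∀ i, IsClosed (P i) ∧ IsClosed (Q i)) ∧
    (∀ i j, i ≠ j → Disjoint (P i) (P j) ∧ Disjoint (Q i) (Q j)) ∧
    (∀ i j, Disjoint (P i) (Q j)) ∧ (∃ x, ∀ i, x ∉ P i ∧ x ∉ Q i) ∧
    ∀ i, ∀ x ∉ Q i, α.map (a i) x ∈ P i

/-- The element `g` is loxodromic on `X`: there are disjoint closed sets `P` and `Q` which do not cover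
`X` such that `g` maps the complement of `Q` into `P`. -/
def Loxodromic {G : Type} [Group G] {X : Type} [TopologicalSpace X] (α : Action G X) (g : G) :
    Prop :=
  ∃ P Q : Set X, IsClosed P ∧ IsClosed Q ∧ Disjoint P Q ∧ (∃ x, x ∉ P ∧ x ∉ Q) ∧
    ∀ x ∉ Q, α.map g x ∈ P

/-- The action of the subgroup `H` on the domain is properly discontinuous. -/
def ProperOn {G : Type} [Group G] {V : Type} [NormedAddCommGroup V] [NormedSpace ℝ V]
    (C : Set V) (τ : V →L[ℝ] ℝ) (ρ : LinAction G V) (H : Subgroup G) : Prop :=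
  ActsProperly (Dom C τ) (fun (g : H) v => projAct τ ρ (g : G) v)

/-- The elements `a` and `b` are close in the projective representation: conjugation by `ρ a` and
conjugation by `ρ b` differ by at most `ε`. -/
def ProjClose {G : Type} [Group G] {V : Type} [NormedAddCommGroup V] [NormedSpace ℝ V]
    (ρ : LinAction G V) (ε : ℝ) (a b : G) : Prop :=
  ∀ A : V →L[ℝ] V, ‖((ρ.map a).comp (A.comp (ρ.map a⁻¹))) -
    ((ρ.map b).comp (A.comp (ρ.map b⁻¹)))‖ ≤ ε * ‖A‖

theorem lox_iff {G : Type} [Group G] {X : Type} [MetricSpace X]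
    {α : Action G X} {g : G} :
    Loxodromic α g ↔ H72.In.Sch α.hom (fun _ : Fin 1 => g) := by
  constructor
  · rintro ⟨P, Q, h1, h2, h3, ⟨x, hx⟩, h4⟩
    exact ⟨fun _ => P, fun _ => Q, fun _ => ⟨h1, h2⟩,
      fun i j hij => absurd (Subsingleton.elim i j) hij, fun _ _ => h3, ⟨x, fun _ => hx⟩,
      fun _ => h4⟩
  · rintro ⟨P, Q, h1, h2, h3, ⟨x, hx⟩, h4⟩
    exact ⟨P 0, Q 0, (h1 0).1, (h1 0).2, h3 0 0, ⟨x, hx 0⟩, h4 0⟩

theorem isProduct_of {X Z : Type} {R : Set (X × Z)}
    (h : ∀ x x' z, (x, z) ∈ R → (x', z) ∈ R) : IsProduct R := by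
  refine ⟨Prod.snd '' R, ?_⟩
  ext ⟨x, z⟩
  constructor
  · intro hx
    exact ⟨mem_univ _, (x, z), hx, rfl⟩
  · rintro ⟨-, ⟨x', z'⟩, hx, hz⟩
    have hz' : z' = z := hz
    rw [hz'] at hx
    exact h x' x z hx

theorem finrank_euc {n : ℕ} : Module.finrank ℝ (Euc n) = n + 1 := by
  rw [finrank_euclideanSpace_fin]

/-- **The theorem.** For minimal convergence actions on the sphere `S^n`, `n ≥ 1`, cocompact on the
triples of distinct points, and linear actions of the group in dimension `n + 2` preserving a strictly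
convex cone: the group divides the domain, and equivariant maps between the boundaries are
homeomorphisms; or the sphere and the closed domain are disjoint, there are no equivariant maps, and
finite families of elements are approximated by families in ping-pong position. Moreover there are
loxodromic elements; and for every infinite normal subgroup `N`: for every loxodromic `s` the group
divides the domain if and only if all subgroups generated by `s` and `h s h⁻¹` with `h ∈ N` and
`s, h s h⁻¹` in ping-pong position act properly discontinuously on the domain; and for all disjoint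
closed sets `P` and `Q` with nonempty interior which do not cover the sphere, and all points `o` of the
domain, the group divides the domain if and only if the displacement of `o` by the elements of `N` which
map the complement of `Q` into `P` is bounded below. -/
theorem result (G : Type) [Group G] (n : ℕ) (α : Action G (Sn n)) (hn : 1 ≤ n) (hα : Converges α)
    (hmin : Minimal α) (hco : TripleCocompact α) (V : Type) [NormedAddCommGroup V]
    [NormedSpace ℝ V] (C : Set V) (τ : V →L[ℝ] ℝ) (ρ : LinAction G V)
    (hV : Module.finrank ℝ V = n + 2) (hC : IsStrictCone C τ)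
    (hpres : ∀ g, ∀ v ∈ C, ρ.map g v ∈ C) :
    ((DividesCone C τ ρ ∧
      (∀ f : Sn n → Bd C τ, Continuous f → EquivariantTo α ρ f → (∃ x y, f x ≠ f y) →
        IsHomeomorph f) ∧
      ∀ h : Bd C τ → Sn n, Continuous h → EquivariantFrom α ρ h → IsHomeomorph h) ∨
    (DisjointCone α C τ ρ ∧
      (∀ (D : Set (Sn n)) (f : Sn n → V), EquivariantOn α C τ ρ D f →
        (∃ z ∈ D, ContinuousWithinAt f D z) → ∀ x ∈ D, ∀ y ∈ D, f x = f y) ∧
      (¬ ∃ h : Bd C τ → Sn n, Continuous h ∧ EquivariantFrom α ρ h) ∧
      ∀ (m : ℕ) (h : Fin m → G) (ε : ℝ), 0 < ε → ∃ a : Fin m → G, PingPong α a ∧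
        ∀ i, ProjClose ρ ε (a i) (h i))) ∧
    (∃ s, Loxodromic α s) ∧
    ∀ N : Subgroup G, N.Normal → (N : Set G).Infinite →
      (∀ s, Loxodromic α s →
        (DividesCone C τ ρ ↔ ∀ h ∈ N, PingPong α ![s, h * s * h⁻¹] →
          ProperOn C τ ρ (Subgroup.closure {s, h * s * h⁻¹}))) ∧
      (∀ P Q : Set (Sn n), IsClosed P → IsClosed Q → Disjoint P Q → (∃ x, x ∉ P ∧ x ∉ Q) →
        (interior P).Nonempty → (interior Q).Nonempty → ∀ o ∈ Dom C τ,
        (DividesCone C τ ρ ↔ ∃ ε : ℝ, 0 < ε ∧
          ∀ g ∈ N, (∀ x ∉ Q, α.map g x ∈ P) → ε ≤ ‖projAct τ ρ g o - o‖)) := by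
  have : FiniteDimensional ℝ V := Module.finite_of_finrank_pos (by omega)
  have : Nontrivial V := Module.nontrivial_of_finrank_pos (R := ℝ) (by omega)
  have h0 : (0 : V) ∉ C := zero_notMem' hC
  have hE : 2 ≤ Module.finrank ℝ (Euc n) := by rw [finrank_euc]; omega
  have hV' : Module.finrank ℝ V ≤ Module.finrank ℝ (Euc n) + 1 := by rw [finrank_euc]; omega
  have hcS : CompactSpace (Sph (Euc n)) := compactSpace_sph
  have hcS' : CompactSpace (Sn n) := hcS
  have hinf : Infinite (Sn n) := infinite_sph hE
  have hneB : Nonempty (Bd C τ) := by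
    obtain ⟨o₁, ho₁⟩ := hC.nonempty
    have hoD : proj τ o₁ ∈ Dom C τ := proj_mem_Dom hC ho₁ (hC.pos_of_mem h0 ho₁)
    -- a vector in the kernel of `τ`
    obtain ⟨x, hx0, hx⟩ : ∃ x : V, x ≠ 0 ∧ τ x = 0 := by
      by_contra hcon
      push Not at hcon
      have hinj : Function.Injective (τ : V →ₗ[ℝ] ℝ) := by
        rw [← LinearMap.ker_eq_bot, LinearMap.ker_eq_bot']
        intro x hx
        by_contra hx0
        exact hcon x hx0 hx
      have := LinearMap.finrank_le_finrank_of_injective hinj
      rw [Module.finrank_self] at this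
      omega
    refine ⟨⟨retr C (proj τ o₁) (proj τ o₁ + x), retr_mem hC hoD (by simpa using hx0) ?_⟩⟩
    rw [map_add, hx, hoD.2, add_zero]
  have hfrom : ∀ h : Bd C τ → Sn n, Continuous h → EquivariantFrom α ρ h →
      DividesCone C τ ρ ∧ IsHomeomorph h := by
    intro h hc he
    obtain ⟨h1, h2⟩ := factor_homeo (E := Euc n) (α := α.hom) (ρ := ρ.hom) hE (by omega) hV' hα hmin
      hco hC h0 hpres hc he hneB
    refine ⟨h1, ?_⟩
    have hcB : CompactSpace (Bd C τ) := by
      have : Bd C τ = Kbar C τ ∩ Cᶜ := by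
        ext v
        constructor
        · rintro ⟨h1, h2, h3⟩; exact ⟨⟨h1, h3⟩, h2⟩
        · rintro ⟨⟨h1, h3⟩, h2⟩; exact ⟨h1, h2, h3⟩
      rw [this]
      exact isCompact_iff_compactSpace.1
        ((isCompact_Kbar hC).inter_right hC.isOpen.isClosed_compl)
    rw [isHomeomorph_iff_continuous_bijective]
    exact ⟨hc, h2⟩
  have hdivp : Prop' C τ ρ.hom → DividesCone C τ ρ := fun hp =>
    ⟨hp, cocompact_of_proper (E := Euc n) (α := α.hom) (ρ := ρ.hom) hE hV' hα hco hC h0 hpres hp⟩
  refine ⟨?_, ?_, fun N hn' hN => ⟨fun s hs => ⟨fun h t _ _ => ?_, fun h => ?_⟩,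
    fun P Q hP hQ hd hx hPi hQi o ho => ⟨fun h => ?_, ?_⟩⟩⟩
  · by_cases hdiv : DividesCone C τ ρ
    · refine Or.inl ⟨hdiv, ?_, fun h hc he => (hfrom h hc he).2⟩
      intro f hf hfe hne
      obtain ⟨x, y, hxy⟩ := hne
      have hfc : Continuous fun x => (f x : V) := continuous_subtype_val.comp hf
      obtain ⟨z, hz⟩ := exists_three'' (E := Euc n) hE
        (⟨fun x => (f x : V), hfc⟩ : C(Sph (Euc n), V)) ⟨x, y, fun h1 => hxy (Subtype.ext h1)⟩
      obtain ⟨hp, K, hKD, hKc, hK⟩ := hdiv
      obtain ⟨hinj, hsurj⟩ := bij_of_cocompact (E := Euc n) (α := α.hom) (ρ := ρ.hom) (by omega) hα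
        hC h0 hpres hp hKD hKc hK (f := fun x => (f x : V)) hfc (fun x => (f x).2) hfe hz
      rw [isHomeomorph_iff_continuous_bijective]
      refine ⟨hf, fun x y hxy => hinj (congrArg Subtype.val hxy), fun q => ?_⟩
      obtain ⟨x, hx⟩ := hsurj q q.2
      exact ⟨x, Subtype.ext hx⟩
    · have h1 := (dichotomy (E := Euc n) (α := α.hom) (ρ := ρ.hom) hE hV' hα hmin hco hC h0
        hpres).resolve_left hdiv
      refine Or.inr ⟨fun R hR hRK hinv => isProduct_of (h1 R hR hRK hinv), ?_, ?_, ?_⟩
      · intro D f hf ⟨z, hzD, hz⟩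
        have key : ∀ x ∈ D, f x = f z := fun x hx =>
          const_on_cone (X := Sn n) (α := α.hom) (ρ := ρ.hom) hC hpres h1
            (fun g x hx => (hf g x hx).1) (fun x hx => (hf 1 x hx).2.1)
            (fun g x hx => (hf g x hx).2.2) hzD hz hx
        intro x hx y hy
        rw [key x hx, key y hy]
      · rintro ⟨h, hc, he⟩
        exact hdiv (hfrom h hc he).1
      · intro m h ε hε
        obtain ⟨a, ha, h2⟩ := H72.In.sch_of_not_prop (α := α.hom) (ρ := ρ.hom) hα hmin hC h0
          hpres (fun hp => hdiv (hdivp hp)) h hε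
        exact ⟨a, ha, h2⟩
  · obtain ⟨s, hs⟩ := H72.In.exists_lox (α := α.hom) hα hmin
    exact ⟨s, lox_iff.2 hs⟩
  · intro K hK hKc
    refine ((h.1 K hK hKc).preimage (Subtype.val_injective
      (p := fun g => g ∈ Subgroup.closure {s, t * s * t⁻¹})).injOn).subset ?_
    rintro g ⟨v, hv, hv'⟩
    exact ⟨v, hv, hv'⟩
  · obtain ⟨o₁, ho₁⟩ := hC.nonempty
    have hoD : proj τ o₁ ∈ Dom C τ := proj_mem_Dom hC ho₁ (hC.pos_of_mem h0 ho₁)
    refine hdivp (H72.In.prop_of_conj (α := α.hom) (ρ := ρ.hom) hα hmin hn' hN hC h0 hpres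
      (lox_iff.1 hs) hoD fun t htN ht K hK hKc => ?_)
    have hr : range ![s, t * s * t⁻¹] = {s, t * s * t⁻¹} := by
      ext g
      simp [eq_comm, or_comm]
    rw [hr]
    refine ((h t htN ht K hK hKc).image Subtype.val).subset ?_
    rintro g ⟨hg, v, hv, hv'⟩
    exact ⟨⟨g, hg⟩, ⟨v, hv, hv'⟩, rfl⟩
  · obtain ⟨ε, hε, h1⟩ := H72.In.displ_of_prop (α := α.hom) (ρ := ρ.hom) hC hpres h.1 ho
    exact ⟨ε, hε, fun g _ hg => h1 g (lox_iff.1 ⟨P, Q, hP, hQ, hd, hx, hg⟩)⟩
  · rintro ⟨ε, hε, h1⟩
    exact hdivp (H72.In.prop_of_pq_sub (α := α.hom) (ρ := ρ.hom) hα hmin hn' hN hC h0 hpres hPi hQi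
      ho hε h1)

end Pool.Agent.Results.MP_04c03c_gt.DisjointOrDivides
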