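import Pool.Agent.H72.Rel.R17
import Pool.Agent.H72.In.I13

/-!
# Relatively hyperbolic groups with boundary a sphere: lattice or disjoint

Let a group `G` act on the sphere `X = S^n`, `n ≥ 2`, as a minimal convergence group which is cusp
uniform: there are finitely many bounded parabolic points `p`, in different orbits, with stabilizers
that are virtually `ℤ^n`, and the action on the triples of distinct points is cocompact off the cusps.
For `n = 2` these are the groups hyperbolic relative to virtually `ℤ^2` subgroups whose Bowditch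
boundary is the 2-sphere. Let `ρ` be any action of `G` by isometries of hyperbolic space `H^(n+1)`,
which is not assumed to be discrete or faithful, or to have anything to do with the peripheral
subgroups. Then
* either `ρ` is a lattice: properly discontinuous with finitely many cusps of full rank and cocompact
  outside them; and every nonconstant continuous equivariant map from `X` to the sphere at infinity is
  a homeomorphism;
* or `X` and the sphere at infinity are disjoint in the sense of topological dynamics: every closed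
  `G`-invariant subset of their product is a product `X × Λ`; every equivariant map to the sphere
  at infinity, from `X` or only from an invariant subset of `X` (for instance an orbit), which is
  continuous at one point, is constant; and for all elements `h 1, …, h m` of `G` there are elements
  `a 1, …, a m` in ping-pong position on `X`, with `ρ (a i)` as close to `ρ (h i)` as one likes.

Hence, for any one infinite normal subgroup `N` of `G` (for instance `N = G`) and any one loxodromic
element `s` of `G`, `ρ` is a lattice if and only if it is properly discontinuous (discrete and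
faithful) on the free subgroups `⟨s, h s h⁻¹⟩`, `h ∈ N`, with `s, h s h⁻¹` in ping-pong position on `X`;
and, for any one pair of disjoint closed subsets `P`, `Q` of `X` with nonempty interior, which do not
cover `X`, `ρ` is a lattice if and only if the displacement of one point of hyperbolic space by the
elements `g` of `N` with `g (X ∖ Q) ⊆ P` (they are loxodromic) is bounded away from 0.
-/

set_option autoImplicit false

open Filter Topology Set Pool.Agent.TH289.C

namespace Pool.Agent.Results.MP_04c03c_gt.LatticeOrDisjoint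

/-- All orbits are dense. -/
def Minimal {G : Type} [Group G] {X : Type} [TopologicalSpace X] (α : Action G X) : Prop :=
  ∀ x : X, Dense (range fun g => α.map g x)

/-- `p` is a bounded parabolic point: its stabilizer acts properly discontinuously and cocompactly on
the complement of `p`. -/
def BoundedParabolic {G : Type} [Group G] {X : Type} [TopologicalSpace X] (α : Action G X)
    (p : X) : Prop :=
  (∀ K : Set X, IsCompact K → p ∉ K → {g : G | α.map g p = p ∧ ∃ w ∈ K, α.map g w ∈ K}.Finite) ∧
    ∃ K : Set X, IsCompact K ∧ p ∉ K ∧ ∀ w, w ≠ p → ∃ g, α.map g p = p ∧ α.map g w ∈ K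

/-- The stabilizer of `p` is virtually `ℤ^n`: it contains a copy of `ℤ^n` of finite index. -/
def VirtuallyZn {G : Type} [Group G] {X : Type} [TopologicalSpace X] (n : ℕ) (α : Action G X)
    (p : X) : Prop :=
  ∃ ψ : Multiplicative (Fin n → ℤ) →* G, Function.Injective ψ ∧ (∀ a, α.map (ψ a) p = p) ∧
    ∃ S : Finset G, ∀ g, α.map g p = p → ∃ a, ∃ s ∈ S, g = ψ a * s

/-- Two of the three points are at distance less than `η` from `p`. -/
def TwoNear {X : Type} [MetricSpace X] (p : X) (η : ℝ) (x y z : X) : Prop :=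
  (dist x p < η ∧ dist y p < η) ∨ (dist y p < η ∧ dist z p < η) ∨ (dist x p < η ∧ dist z p < η)

/-- The action on the triples of distinct points is cocompact off the cusps at the points of `Ps`: for
every `η > 0` there is `ε > 0` such that every triple of distinct points has a translate whose points
have pairwise distance at least `ε`, or a translate which is in the cusp of size `η` of a point `p` of
`Ps`: all its translates by elements fixing `p` have two points at distance less than `η` from `p`. -/
def CuspUniform {G : Type} [Group G] {X : Type} [MetricSpace X] (α : Action G X)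
    (Ps : Finset X) : Prop :=
  ∀ η : ℝ, 0 < η → ∃ ε : ℝ, 0 < ε ∧ ∀ x y z : X, x ≠ y → y ≠ z → x ≠ z →
    (∃ g : G, ε ≤ dist (α.map g x) (α.map g y) ∧ ε ≤ dist (α.map g y) (α.map g z) ∧
      ε ≤ dist (α.map g x) (α.map g z)) ∨
    ∃ g : G, ∃ p ∈ Ps, ∀ h : G, α.map h p = p →
      TwoNear p η (α.map h (α.map g x)) (α.map h (α.map g y)) (α.map h (α.map g z))

/-- The group acts as a relatively hyperbolic group on its Bowditch boundary: a minimal convergence
action, cusp uniform, with bounded parabolic points in different orbits whose stabilizers are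
virtually `ℤ^n`. -/
structure RelHyperbolic {G : Type} [Group G] {X : Type} [MetricSpace X] (n : ℕ) (α : Action G X)
    (Ps : Finset X) : Prop where
  converges : Converges α
  minimal : Minimal α
  parabolic : ∀ p ∈ Ps, BoundedParabolic α p
  virtually : ∀ p ∈ Ps, VirtuallyZn n α p
  different : ∀ p ∈ Ps, ∀ g, α.map g p ∈ Ps → α.map g p = p
  uniform : CuspUniform α Ps

/-- The Lorentz form as a bilinear form. -/
noncomputable def form {n : ℕ} (v w : Mink n) : ℝ := (lor (v + w) - lor v - lor w) / 2

/-- `ρ` is an action by isometries of hyperbolic space `H^(n+1)`. -/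
def IsIsometric {G : Type} [Group G] {n : ℕ} (ρ : LinAction G (Mink n)) : Prop :=
  (∀ g v, lor (ρ.map g v) = lor v) ∧ ∀ g, 0 < time (ρ.map g (origin n))

/-- The point `c` at infinity is a cusp of full rank: a subgroup `P` of `G` fixes the light-like
vector of `c` (so it preserves every horoball centred at `c`) and acts cocompactly on the complement
of `c` in the sphere at infinity. -/
def FullCusp {G : Type} [Group G] {n : ℕ} (ρ : LinAction G (Mink n)) (c : Sn n) : Prop :=
  ∃ P : Subgroup G, (∀ g ∈ P, ρ.map g (light c) = light c) ∧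
    ∃ K : Set (Sn n), IsCompact K ∧ c ∉ K ∧
      ∀ w, w ≠ c → ∃ g ∈ P, ∃ w' ∈ K, ∃ s : ℝ, 0 < s ∧ ρ.map g (light w) = s • light w'

/-- The action on hyperbolic space is that of a lattice: it is properly discontinuous, and there are
finitely many points `c` at infinity, cusps of full rank, such that for every `κ > 0` the action is
cocompact on the complement of the translates of the horoballs `form v (light c) < κ` centred at
these points: every point `v` of hyperbolic space in no translate of these horoballs has a translate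
with time coordinate at most `R`. -/
def IsLattice {G : Type} [Group G] {n : ℕ} (ρ : LinAction G (Mink n)) : Prop :=
  ActsProperly (HypSpace n) (fun g v => ρ.map g v) ∧
    ∃ C : Finset (Sn n), (∀ c ∈ C, FullCusp ρ c) ∧ ∀ κ : ℝ, 0 < κ → ∃ R : ℝ, ∀ v ∈ HypSpace n,
      (∀ g : G, ∀ c ∈ C, κ ≤ form (ρ.map g v) (light c)) → ∃ g : G, time (ρ.map g v) ≤ R

/-- The boundary `X` and the sphere at infinity are disjoint: all closed invariant subsets of their
product are of the form `X × Λ`. -/
def AreDisjoint {G : Type} [Group G] {X : Type} [TopologicalSpace X] (α : Action G X) {n : ℕ}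
    (ρ : LinAction G (Mink n)) : Prop :=
  ∀ R : Set (X × Sn n), IsClosed R →
    (∀ g x y y' (c : ℝ), 0 < c → ρ.map g (light y) = c • light y' → (x, y) ∈ R →
      (α.map g x, y') ∈ R) → ∃ Λ : Set (Sn n), R = univ ×ˢ Λ

/-- The set `D` is invariant and the map `f` from `D` to the sphere at infinity is equivariant (the
values of `f` at other points do not matter). -/
def EquivariantOn {G : Type} [Group G] {X : Type} [TopologicalSpace X] (α : Action G X) {n : ℕ}
    (ρ : LinAction G (Mink n)) (D : Set X) (f : X → Sn n) : Prop :=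
  ∀ g, ∀ x ∈ D, α.map g x ∈ D ∧
    ∃ c : ℝ, 0 < c ∧ ρ.map g (light (f x)) = c • light (f (α.map g x))

/-- The elements `a i` are in ping-pong position on `X`: there are closed sets `P i` and `Q i`, pairwise
disjoint, which do not cover `X`, such that `a i` maps the complement of `Q i` into `P i`. For `m ≥ 2`
the elements `a i` freely generate a free (Schottky) subgroup. -/
def PingPong {G : Type} [Group G] {X : Type} [TopologicalSpace X] (α : Action G X) {m : ℕ}
    (a : Fin m → G) : Prop :=
  ∃ P Q : Fin m → Set X, (∀ i, IsClosed (P i) ∧ IsClosed (Q i)) ∧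
    (∀ i j, i ≠ j → Disjoint (P i) (P j) ∧ Disjoint (Q i) (Q j)) ∧
    (∀ i j, Disjoint (P i) (Q j)) ∧ (∃ x, ∀ i, x ∉ P i ∧ x ∉ Q i) ∧
    ∀ i, ∀ x ∉ Q i, α.map (a i) x ∈ P i

/-- The element `g` is loxodromic on `X`: there are disjoint closed sets `P` and `Q` which do not cover
`X` such that `g` maps the complement of `Q` into `P`. -/
def Loxodromic {G : Type} [Group G] {X : Type} [TopologicalSpace X] (α : Action G X) (g : G) :
    Prop :=
  ∃ P Q : Set X, IsClosed P ∧ IsClosed Q ∧ Disjoint P Q ∧ (∃ x, x ∉ P ∧ x ∉ Q) ∧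
    ∀ x ∉ Q, α.map g x ∈ P

/-- The action of the subgroup `H` on hyperbolic space is properly discontinuous. -/
def ProperOn {G : Type} [Group G] {n : ℕ} (ρ : LinAction G (Mink n)) (H : Subgroup G) : Prop :=
  ActsProperly (HypSpace n) (fun (g : H) v => ρ.map (g : G) v)

section Convert

variable {G : Type} [Group G] {n : ℕ}

theorem lor_eq (v : Mink n) : lor v = TH631.RC.lor (E := Euc n) v v := by
  change (show ℝ × Euc n from v).1 ^ 2 - ‖(show ℝ × Euc n from v).2‖ ^ 2 =
    (show ℝ × Euc n from v).1 * (show ℝ × Euc n from v).1 -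
      inner ℝ (show ℝ × Euc n from v).2 (show ℝ × Euc n from v).2
  rw [real_inner_self_eq_norm_sq]
  ring

theorem form_eq (v w : Mink n) : form v w = TH631.RC.lor (E := Euc n) v w := by
  unfold form
  rw [lor_eq, lor_eq, lor_eq]
  have h1 : TH631.RC.lor (E := Euc n) (v + w) (v + w) = TH631.RC.lor (E := Euc n) v v +
      2 * TH631.RC.lor (E := Euc n) v w + TH631.RC.lor (E := Euc n) w w := by
    have e1 : (show ℝ × Euc n from (v + w)) = (show ℝ × Euc n from v) + (show ℝ × Euc n from w) :=
      rfl
    simp only [TH631.RC.lor]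
    change (show ℝ × Euc n from (v + w)).1 * (show ℝ × Euc n from (v + w)).1 -
      inner ℝ (show ℝ × Euc n from (v + w)).2 (show ℝ × Euc n from (v + w)).2 = _
    rw [e1, Prod.fst_add, Prod.snd_add, inner_add_left, inner_add_right, inner_add_right,
      real_inner_comm (show ℝ × Euc n from v).2 (show ℝ × Euc n from w).2]
    ring
  rw [h1]
  ring

theorem form_map {ρ : LinAction G (Mink n)} (hρ : IsIsometric ρ) (g : G) (v w : Mink n) :
    form (ρ.map g v) (ρ.map g w) = form v w := by
  unfold form
  have h1 : ρ.map g v + ρ.map g w = ρ.map g (v + w) := ((ρ.map g).map_add v w).symm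
  rw [h1, hρ.1, hρ.1, hρ.1]

theorem lor_map' {ρ : LinAction G (Mink n)} (hρ : IsIsometric ρ) (g : G) (v w : Mink n) :
    TH631.RC.lor (E := Euc n) (ρ.map g v) (ρ.map g w) = TH631.RC.lor (E := Euc n) v w := by
  rw [← form_eq, ← form_eq, form_map hρ]

/-- The action in the general setting. -/
noncomputable def toHyp (ρ : LinAction G (Mink n)) (hρ : IsIsometric ρ) :
    TH631.RC.HypAction G (Euc n) where
  map g :=
    { toFun := fun v => ρ.map g v
      map_add' := fun v w => (ρ.map g).map_add v w
      map_smul' := fun c v => (ρ.map g).map_smul c v }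
  map_one v := ρ.map_one v
  map_mul g h v := ρ.map_mul g h v
  lor_map g v w := lor_map' hρ g v w
  pos g := hρ.2 g

variable {ρ : LinAction G (Mink n)} (hρ : IsIsometric ρ)

theorem mem_hyp {v : Mink n} : v ∈ HypSpace n ↔ v ∈ TH631.RC.HypSpace (Euc n) := by
  constructor
  · rintro ⟨h1, h2⟩
    exact ⟨by rw [← lor_eq]; exact h1, h2⟩
  · rintro ⟨h1, h2⟩
    exact ⟨by rw [lor_eq]; exact h1, h2⟩

theorem isLattice_of (h : H72.Rel.Latt (toHyp ρ hρ)) : IsLattice ρ := by
  obtain ⟨h1, C, hC, h2⟩ := h
  refine ⟨fun K hK hKc => h1 K (fun v hv => mem_hyp.1 (hK hv)) hKc, C, fun c hc => hC c hc,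
    fun κ hκ => ?_⟩
  obtain ⟨R, hR⟩ := h2 κ hκ
  refine ⟨R, fun v hv hcusp => hR v (mem_hyp.1 hv) fun g c hc => ?_⟩
  have h3 := hcusp g c hc
  rw [form_eq] at h3
  exact h3

theorem F_eq {g : G} {y y' : Sn n} {c : ℝ} (h : ρ.map g (light y) = c • light y') :
    y' = TH631.RC.F (toHyp ρ hρ) g y :=
  (TH631.RC.map_light_unique (ρ := toHyp ρ hρ) (g := g) (x := y) (x' := y') (c := c) h).2

theorem map_F (g : G) (y : Sn n) : 0 < TH631.RC.tt (toHyp ρ hρ) g y ∧
    ρ.map g (light y) = TH631.RC.tt (toHyp ρ hρ) g y • light (n := n)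
      (TH631.RC.F (toHyp ρ hρ) g y) :=
  ⟨TH631.RC.tt_pos g _, TH631.RC.map_light (ρ := toHyp ρ hρ) g y⟩

theorem vzn_of {α : Action G (Sn n)} {p : Sn n} (h : VirtuallyZn n α p) :
    H72.Rel.VZn n α.hom p := h

theorem par_of (hn : 1 ≤ n) {α : Action G (Sn n)} {p : Sn n} (h : BoundedParabolic α p)
    (hv : VirtuallyZn n α p) : H72.Rel.Par α.hom p := by
  refine ⟨h.1, h.2, ?_⟩
  obtain ⟨ψ, hψ, hfix, -⟩ := hv
  refine ⟨ψ (Multiplicative.ofAdd (Pi.single ⟨0, by omega⟩ 1)), hfix _, fun a b hab => ?_⟩
  have h1 : ψ (Multiplicative.ofAdd (Pi.single ⟨0, by omega⟩ 1) ^ a) =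
      ψ (Multiplicative.ofAdd (Pi.single ⟨0, by omega⟩ 1) ^ b) := by
    rw [map_pow, map_pow]
    exact hab
  have h2 := hψ h1
  rw [← ofAdd_nsmul, ← ofAdd_nsmul] at h2
  have h3 := congrFun (Multiplicative.ofAdd.injective h2) ⟨0, by omega⟩
  simpa using h3

theorem near_of {p : Sn n} {η : ℝ} {t : Fin 3 → Sn n} (h : TwoNear p η (t 0) (t 1) (t 2)) :
    Near p η t := by
  rcases h with h | h | h
  · exact ⟨0, 1, by decide, h.1, h.2⟩
  · exact ⟨1, 2, by decide, h.1, h.2⟩
  · exact ⟨0, 2, by decide, h.1, h.2⟩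

theorem cusp_of {α : Action G (Sn n)} {Ps : Finset (Sn n)} (h : CuspUniform α Ps) :
    H72.Rel.Cusp α.hom Ps := by
  intro η hη
  obtain ⟨ε, hε, hcov⟩ := h η hη
  refine ⟨ε, hε, fun t ht => ?_⟩
  have hne : ∀ i j, i ≠ j → t i ≠ t j := fun i j hij h0 => by
    have h1 := sep_le t hij
    rw [h0, dist_self] at h1
    exact absurd ht (not_lt.2 h1)
  rcases hcov (t 0) (t 1) (t 2) (hne 0 1 (by decide)) (hne 1 2 (by decide))
    (hne 0 2 (by decide)) with ⟨g, h1, h2, h3⟩ | ⟨g, p, hp, h⟩
  · exact Or.inl ⟨g, le_min h1 (le_min h2 h3)⟩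
  · exact Or.inr ⟨g, p, hp, fun h' hh' => near_of (h h' hh')⟩

theorem rl_of (hn : 1 ≤ n) {α : Action G (Sn n)} {Ps : Finset (Sn n)}
    (h : RelHyperbolic n α Ps) : H72.Rel.Rl α.hom Ps :=
  ⟨h.converges, fun p hp => par_of hn (h.parabolic p hp) (h.virtually p hp), h.different⟩

theorem sch_iff {α : Action G (Sn n)} {m : ℕ} {a : Fin m → G} :
    PingPong α a ↔ H72.In.Sch α.hom a := Iff.rfl

theorem lox_iff {α : Action G (Sn n)} {g : G} :
    Loxodromic α g ↔ H72.In.Sch α.hom (fun _ : Fin 1 => g) := by
  constructor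
  · rintro ⟨P, Q, h1, h2, h3, ⟨x, hx⟩, h4⟩
    exact ⟨fun _ => P, fun _ => Q, fun _ => ⟨h1, h2⟩,
      fun i j hij => absurd (Subsingleton.elim i j) hij, fun _ _ => h3, ⟨x, fun _ => hx⟩,
      fun _ => h4⟩
  · rintro ⟨P, Q, h1, h2, h3, ⟨x, hx⟩, h4⟩
    exact ⟨P 0, Q 0, (h1 0).1, (h1 0).2, h3 0 0, ⟨x, hx 0⟩, h4 0⟩

theorem actsProperly_of (h : ActsProperly (HypSpace n) (fun g v => ρ.map g v)) :
    TH631.RC.ActsProperly (toHyp ρ hρ) :=
  fun K hK hKc => h K (fun _ hv => mem_hyp.2 (hK hv)) hKc

/-- Subgroups which act properly. -/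
theorem fin_of_properOn {H : Subgroup G} (h : ProperOn ρ H) (R : ℝ) :
    {g : G | g ∈ H ∧ TH631.RC.T (toHyp ρ hρ) g ≤ R}.Finite := by
  refine H72.In.fin_of_acts (ρ := toHyp ρ hρ) (H := (H : Set G)) (fun K hK hKc => ?_) R
  refine ((h K (fun _ hv => mem_hyp.2 (hK hv)) hKc).image Subtype.val).subset ?_
  rintro g ⟨hg, v, hv, hv'⟩
  exact ⟨⟨g, hg⟩, ⟨v, hv, hv'⟩, rfl⟩

theorem properOn_of (h : ActsProperly (HypSpace n) (fun g v => ρ.map g v)) (H : Subgroup G) :
    ProperOn ρ H := by
  intro K hK hKc
  refine ((h K hK hKc).preimage (Subtype.val_injective (p := fun g => g ∈ H)).injOn).subset ?_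
  rintro g ⟨v, hv, hv'⟩
  exact ⟨v, hv, hv'⟩

end Convert

/-- **The theorem.** Let `G` act on the sphere `S^n`, `n ≥ 2`, as a relatively hyperbolic group on its
Bowditch boundary, with peripheral groups that are virtually `ℤ^n`. For every action of `G` by
isometries of hyperbolic space of dimension `n + 1`: either it is a lattice, and every nonconstant
continuous equivariant map from `S^n` to the sphere at infinity is a homeomorphism; or `S^n` is
disjoint from the sphere at infinity, and every equivariant map from an invariant subset `D` of `S^n`,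
for instance from one orbit, to the sphere at infinity, which is continuous at one point of `D`, is
constant, and all finite families of elements of `G` are approximated, in the representation `ρ`, by
families in ping-pong position on `S^n`. Moreover there are loxodromic elements; and for every infinite
normal subgroup `N`: for every loxodromic `s`, `ρ` is a lattice if and only if all subgroups generated
by `s` and `h s h⁻¹` with `h ∈ N` and `s, h s h⁻¹` in ping-pong position on `S^n` act properly
discontinuously on hyperbolic space; and for all disjoint closed sets `P` and `Q` with nonempty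
interior which do not cover `S^n`, `ρ` is a lattice if and only if the displacement of the base point by
the elements of `N` which map the complement of `Q` into `P` is bounded below
(`time (ρ.map g (origin n))` is the hyperbolic cosine of this displacement). -/
theorem result (G : Type) [Group G] (n : ℕ) (hn : 2 ≤ n) (α : Action G (Sn n))
    (Ps : Finset (Sn n)) (hα : RelHyperbolic n α Ps) (ρ : LinAction G (Mink n))
    (hρ : IsIsometric ρ) :
    ((IsLattice ρ ∧ ∀ f : Sn n → Sn n, EquivariantOn α ρ univ f → Continuous f →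
      (∃ x y, f x ≠ f y) → IsHomeomorph f) ∨
    (AreDisjoint α ρ ∧ (∀ (D : Set (Sn n)) (f : Sn n → Sn n), EquivariantOn α ρ D f →
      (∃ z ∈ D, ContinuousWithinAt f D z) → ∀ x ∈ D, ∀ y ∈ D, f x = f y) ∧
      ∀ (m : ℕ) (h : Fin m → G) (ε : ℝ), 0 < ε → ∃ a : Fin m → G, PingPong α a ∧
        ∀ i v, ‖ρ.map (a i) v - ρ.map (h i) v‖ ≤ ε * ‖v‖)) ∧
    (∃ s, Loxodromic α s) ∧
    ∀ N : Subgroup G, N.Normal → (N : Set G).Infinite →
      (∀ s, Loxodromic α s →
        (IsLattice ρ ↔ ∀ h ∈ N, PingPong α ![s, h * s * h⁻¹] →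
          ProperOn ρ (Subgroup.closure {s, h * s * h⁻¹}))) ∧
      (∀ P Q : Set (Sn n), IsClosed P → IsClosed Q → Disjoint P Q → (∃ x, x ∉ P ∧ x ∉ Q) →
        (interior P).Nonempty → (interior Q).Nonempty →
        (IsLattice ρ ↔ ∃ ε : ℝ, 0 < ε ∧
          ∀ g ∈ N, (∀ x ∉ Q, α.map g x ∈ P) → 1 + ε ≤ time (ρ.map g (origin n)))) := by
  have hE : Module.finrank ℝ (Euc n) = n + 1 := by rw [finrank_euclideanSpace_fin]
  have hR := rl_of (by omega) hα
  have hC := cusp_of hα.uniform
  have hV : ∀ p ∈ Ps, H72.Rel.VZn n α.hom p := fun p hp => vzn_of (hα.virtually p hp)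
  have hcS : CompactSpace (Sn n) := isCompact_iff_compactSpace.1 (isCompact_sphere (0 : Euc n) 1)
  have hinf : Infinite (Sn n) := H72.Dj.infinite_sph (by rw [hE]; omega)
  have hlat : (∀ R : ℝ, {g : G | TH631.RC.T (toHyp ρ hρ) g ≤ R}.Finite) → IsLattice ρ := by
    intro hfin
    obtain ⟨c, ℓ, κ, c₀, hg⟩ := H72.Rel.exists_geo (ρ := toHyp ρ hρ) hn hE hR hC hV hfin
    exact isLattice_of hρ hg.latt
  have hlat' : IsLattice ρ → ∀ R : ℝ, {g : G | TH631.RC.T (toHyp ρ hρ) g ≤ R}.Finite :=
    fun h => H72.In.fin_of_proper (actsProperly_of hρ h.1)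
  refine ⟨?_, ?_, fun N hn' hN => ⟨fun s hs => ⟨fun h t _ _ => properOn_of h.1 _, fun h => ?_⟩,
    fun P Q hP hQ hd hx hPi hQi => ⟨fun h => ?_, ?_⟩⟩⟩
  · have hF : ∀ (D : Set (Sn n)) (f : Sn n → Sn n), EquivariantOn α ρ D f → ∀ g, ∀ x ∈ D,
        f (α.hom g x) = TH631.RC.F (toHyp ρ hρ) g (f x) := by
      intro D f hf g x hx
      obtain ⟨-, c, hc, h⟩ := hf g x hx
      exact F_eq hρ h
    by_cases hfin : ∀ R : ℝ, {g : G | TH631.RC.T (toHyp ρ hρ) g ≤ R}.Finite
    · refine Or.inl ⟨hlat hfin, fun f hf hc hne => ?_⟩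
      obtain ⟨c, ℓ, κ, c₀, hg⟩ := H72.Rel.exists_geo (ρ := toHyp ρ hρ) hn hE hR hC hV hfin
      have hr : (range f).Infinite :=
        TH631.RC.inf_of (X := TH631.RC.Sp (Euc n)) (by rw [hE]; omega) hc hne
      exact H72.Rel.f_homeo hg hR hc (fun g x => hF univ f hf g x (mem_univ x)) hr
    · have h' : ∀ R : Set (Sn n × Sn n), IsClosed R →
          (∀ g x y, (x, y) ∈ R → (α.hom g x, TH631.RC.F (toHyp ρ hρ) g y) ∈ R) →
          ∀ x x' y, (x, y) ∈ R → (x', y) ∈ R := fun R hRc hinv =>
        H72.Rel.disjoint_hyp (α := α.hom) (ρ := toHyp ρ hρ) hR.conv hα.minimal hfin hRc hinv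
      refine Or.inr ⟨fun R hRc hinv => ⟨Prod.snd '' R, ?_⟩, ?_, fun m k ε hε => ?_⟩
      · have h1 := h' R hRc (fun g x y hxy => hinv g x y _ _ (map_F hρ g y).1 (map_F hρ g y).2 hxy)
        ext ⟨x, z⟩
        constructor
        · intro hx
          exact ⟨mem_univ _, (x, z), hx, rfl⟩
        · rintro ⟨-, ⟨x', z'⟩, hx, hz⟩
          have hz' : z' = z := hz
          rw [hz'] at hx
          exact h1 x' x z hx
      · intro D f hf ⟨z, hzD, hz⟩ x hx y hy
        have hD : ∀ g, ∀ x ∈ D, α.hom g x ∈ D := fun g x hx => (hf g x hx).1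
        rw [H72.Rel.const_on h' hD (hF D f hf) hzD hz hx,
          H72.Rel.const_on h' hD (hF D f hf) hzD hz hy]
      · obtain ⟨a, ha, h1⟩ := H72.In.exists_sch_near (α := α.hom) (ρ := toHyp ρ hρ) hR.conv
          hα.minimal hfin k hε
        exact ⟨a, ha, h1⟩
  · obtain ⟨s, hs⟩ := H72.In.exists_lox (α := α.hom) hR.conv hα.minimal
    exact ⟨s, lox_iff.2 hs⟩
  · refine hlat (H72.In.fin_of_conj (α := α.hom) (ρ := toHyp ρ hρ) hR.conv hα.minimal hn' hN
      (lox_iff.1 hs) fun t htN ht => ?_)
    have hr : range ![s, t * s * t⁻¹] = {s, t * s * t⁻¹} := by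
      ext g
      simp [eq_comm, or_comm]
    rw [hr]
    exact fin_of_properOn hρ (h t htN ht) 2
  · obtain ⟨ε, hε, h1⟩ := H72.In.displ_of_fin (α := α.hom) (hlat' h)
    exact ⟨ε, hε, fun g _ hg => h1 g (lox_iff.1 ⟨P, Q, hP, hQ, hd, hx, hg⟩)⟩
  · rintro ⟨ε, hε, h1⟩
    exact hlat (H72.In.fin_of_pq_sub (α := α.hom) (ρ := toHyp ρ hρ) hR.conv hα.minimal hn' hN hPi hQi
      hε h1)

end Pool.Agent.Results.MP_04c03c_gt.LatticeOrDisjoint
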