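import Pool.Agent.H72.In.I13

/-!
# Representations of relatively hyperbolic groups that are not proper

Let a group `G` act on an infinite compact metric space `X` as a minimal convergence group: for instance
a nonelementary relatively hyperbolic group acting on its Bowditch boundary. Let `ρ` be a homomorphism
from `G` to a Hausdorff, first countable topological group `L`. Either `ρ` is proper, and `G` acts
properly discontinuously on `X × L`; or all orbits of `G` in the product of `X` with the closure of
`ρ(G)` are dense, and then `X` is disjoint, in the sense of topological dynamics, from every space `Z`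
on which `L` acts continuously: every closed `G`-invariant subset of `X × Z` is a product `X × Z'`.
In the second case every finite family of elements of `G` is approximated, in the representation `ρ`,
by families in ping-pong position on `X`. Equivariant maps to `Z` from an invariant subset of `X`
(for instance one orbit) that are continuous at one point are constant, and there are no continuous
equivariant maps from `Z` to `X`.

It follows that, for any one infinite normal subgroup `N` of `G` (for instance `N = G`) and any one pair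
of disjoint closed sets `P`, `Q` with nonempty interior, which do not cover `X`, a homomorphism is
proper if and only if the images of the elements `g ∈ N` with `g (X ∖ Q) ⊆ P` stay away from the
identity. For any one loxodromic element `s` of `G` a homomorphism to the group of units of a normed
ring, for instance `GL_n(ℝ)`, is proper if and only if its restrictions to all free subgroups
`⟨s, h s h⁻¹⟩`, `h ∈ N`, with `s, h s h⁻¹` in ping-pong position on `X` are proper.
-/

set_option autoImplicit false

open Filter Topology Set Pool.Agent.TH289.C Pool.Agent.H72.Dj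

namespace Pool.Agent.Results.MP_04c03c_gt.NonproperDisjoint

/-- All orbits are dense. -/
def Minimal {G : Type} [Group G] {X : Type} [TopologicalSpace X] (α : Action G X) : Prop :=
  ∀ x : X, Dense (range fun g => α.map g x)

/-- The images of some sequence of distinct elements converge. -/
def NotProper {G : Type} [Group G] {L : Type} [Group L] [TopologicalSpace L] (ρ : G →* L) : Prop :=
  ∃ (g : ℕ → G) (u : L), Function.Injective g ∧ Tendsto (fun k => ρ (g k)) atTop (𝓝 u)

/-- The elements `a i` are in ping-pong position on `X`: there are closed sets `P i` and `Q i`, pairwise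
disjoint, which do not cover `X`, such that `a i` maps the complement of `Q i` into `P i`. For `m ≥ 2`
the elements `a i` freely generate a free (Schottky) subgroup. -/
def PingPong {G : Type} [Group G] {X : Type} [TopologicalSpace X] (α : Action G X) {m : ℕ}
    (a : Fin m → G) : Prop :=
  ∃ P Q : Fin m → Set X, (∀ i, IsClosed (P i) ∧ IsClosed (Q i)) ∧
    (∀ i j, i ≠ j → Disjoint (P i) (P j) ∧ Disjoint (Q i) (Q j)) ∧
    (∀ i j, Disjoint (P i) (Q j)) ∧ (∃ x, ∀ i, x ∉ P i ∧ x ∉ Q i) ∧
    ∀ i, ∀ x ∉ Q i, α.map (a i) x ∈ P i

/-- The element `g` is loxodromic on `X`: there are disjoint closed sets `P` and `Q` which do not cover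
`X` such that `g` maps the complement of `Q` into `P`. -/
def Loxodromic {G : Type} [Group G] {X : Type} [TopologicalSpace X] (α : Action G X) (g : G) :
    Prop :=
  ∃ P Q : Set X, IsClosed P ∧ IsClosed Q ∧ Disjoint P Q ∧ (∃ x, x ∉ P ∧ x ∉ Q) ∧
    ∀ x ∉ Q, α.map g x ∈ P

/-- Position in `L` and dynamics on `X` are independent: near every `ρ f` there are elements `ρ g` such
that `g` maps the complement of a given nonempty open set into a given nonempty open set. -/
def Independent {G : Type} [Group G] {X : Type} [TopologicalSpace X] (α : Action G X) {L : Type}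
    [Group L] [TopologicalSpace L] (ρ : G →* L) : Prop :=
  ∀ U U' : Set X, IsOpen U → U.Nonempty → IsOpen U' → U'.Nonempty → ∀ f : G, ∀ W ∈ 𝓝 (ρ f),
    ∃ g, ρ g ∈ W ∧ ∀ x ∉ U', α.map g x ∈ U

/-- All orbits of `G` in the product of `X` with the closure of `ρ(G)` are dense. -/
def DenseOrbits {G : Type} [Group G] {X : Type} [TopologicalSpace X] (α : Action G X) {L : Type}
    [Group L] [TopologicalSpace L] (ρ : G →* L) : Prop :=
  ∀ x, ∀ l ∈ closure (range ρ),
    (univ : Set X) ×ˢ closure (range ρ) ⊆ closure (range fun g => (α.map g x, ρ g * l))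

/-- The action of `G` on `X × L` is properly discontinuous. -/
def ProperOnProduct {G : Type} [Group G] {X : Type} [TopologicalSpace X] (α : Action G X)
    {L : Type} [Group L] [TopologicalSpace L] (ρ : G →* L) : Prop :=
  ∀ K : Set (X × L), IsCompact K → {g : G | ∃ p ∈ K, (α.map g p.1, ρ g * p.2) ∈ K}.Finite

/-- `X` is disjoint from the space `Z`, on which `L` acts: the closed `G`-invariant subsets of `X × Z`
are products. -/
def DisjointFrom {G : Type} [Group G] {X : Type} [TopologicalSpace X] (α : Action G X)
    {L : Type} [Group L] (ρ : G →* L) (Z : Type) [TopologicalSpace Z] [MulAction L Z] : Prop :=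
  ∀ R : Set (X × Z), IsClosed R → (∀ g x z, (x, z) ∈ R → (α.map g x, ρ g • z) ∈ R) →
    ∃ Z' : Set Z, R = univ ×ˢ Z'

section Helpers

variable {G : Type} [Group G] {X : Type} [MetricSpace X] {α : Action G X}

theorem lox_iff {g : G} : Loxodromic α g ↔ H72.In.Sch α.hom (fun _ : Fin 1 => g) := by
  constructor
  · rintro ⟨P, Q, h1, h2, h3, ⟨x, hx⟩, h4⟩
    exact ⟨fun _ => P, fun _ => Q, fun _ => ⟨h1, h2⟩,
      fun i j hij => absurd (Subsingleton.elim i j) hij, fun _ _ => h3, ⟨x, fun _ => hx⟩,
      fun _ => h4⟩
  · rintro ⟨P, Q, h1, h2, h3, ⟨x, hx⟩, h4⟩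
    exact ⟨P 0, Q 0, (h1 0).1, (h1 0).2, h3 0 0, ⟨x, hx 0⟩, h4 0⟩

theorem prod_of [CompactSpace X] [Infinite X] (hα : Converges α) (hmin : Minimal α) {L : Type}
    [Group L] [TopologicalSpace L] [IsTopologicalGroup L] {ρ : G →* L} (hρ : NotProper ρ)
    {Z : Type} [TopologicalSpace Z] [MulAction L Z] [ContinuousSMul L Z] {R : Set (X × Z)}
    (hR : IsClosed R) (hinv : ∀ g x z, (x, z) ∈ R → (α.map g x, ρ g • z) ∈ R) (x x' : X) (z : Z)
    (hx : (x, z) ∈ R) : (x', z) ∈ R :=
  H72.In.prod_of_ind (α := α.hom) (H72.In.ind_of_np hα hmin hρ) hR hinv x x' z hx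

theorem disj_of [CompactSpace X] [Infinite X] (hα : Converges α) (hmin : Minimal α) {L : Type}
    [Group L] [TopologicalSpace L] [IsTopologicalGroup L] {ρ : G →* L} (hρ : NotProper ρ)
    (Z : Type) [TopologicalSpace Z] [MulAction L Z] [ContinuousSMul L Z] : DisjointFrom α ρ Z := by
  intro R hR hinv
  refine ⟨Prod.snd '' R, ?_⟩
  ext ⟨x, z⟩
  constructor
  · intro hx
    exact ⟨mem_univ _, (x, z), hx, rfl⟩
  · rintro ⟨-, ⟨x', z'⟩, hx, hz⟩
    have hz' : z' = z := hz
    rw [hz'] at hx
    exact prod_of hα hmin hρ hR hinv x' x z hx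

end Helpers

/-- **The theorem.** Let `α` be a minimal convergence action of `G` on an infinite compact metric space
`X`. For every homomorphism `ρ` from `G` to a Hausdorff first countable topological group `L` the
following are equivalent: `ρ` is not proper; position in `L` and dynamics on `X` are independent; all
finite families of elements are approximated by families in ping-pong position; the identity is
approximated by loxodromic elements; the orbits in `X × closure (ρ(G))` are dense; the action on
`X × L` is not properly discontinuous; `X` is disjoint from all spaces on which `L` acts; `X` is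
disjoint from `L`. In this case equivariant maps from an invariant subset `D` of `X` to a Hausdorff
space on which `L` acts that are continuous at one point of `D` are constant, and there are no
continuous equivariant maps to `X`. For every infinite normal subgroup `N` and all disjoint closed sets
`P` and `Q` with nonempty interior which do not cover `X`, `ρ` is not proper if and only if the identity
is approximated by the images of elements `g` of `N` which map the complement of `Q` into `P`. There are
loxodromic elements `s`, and for every such `s` a homomorphism to the group of units of a normed ring is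
not proper if and only if its restriction to some subgroup generated by `s` and `h s h⁻¹` with `h ∈ N`
and `s, h s h⁻¹` in ping-pong position is not proper. -/
theorem result (G : Type) [Group G] (X : Type) [MetricSpace X] [CompactSpace X] [Infinite X]
    (α : Action G X) (hα : Converges α) (hmin : Minimal α) :
    (∀ (L : Type) [Group L] [TopologicalSpace L] [IsTopologicalGroup L] [T2Space L]
      [FirstCountableTopology L] (ρ : G →* L),
      List.TFAE [NotProper ρ,
        Independent α ρ,
        (∀ (m : ℕ) (h : Fin m → G) (W : Fin m → Set L), (∀ i, W i ∈ 𝓝 (ρ (h i))) →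
          ∃ a : Fin m → G, PingPong α a ∧ ∀ i, ρ (a i) ∈ W i),
        (∀ W ∈ 𝓝 (1 : L), ∃ g, Loxodromic α g ∧ ρ g ∈ W),
        DenseOrbits α ρ,
        ¬ ProperOnProduct α ρ,
        (∀ (Z : Type) [TopologicalSpace Z] [MulAction L Z] [ContinuousSMul L Z],
          DisjointFrom α ρ Z),
        DisjointFrom α ρ L] ∧
      (NotProper ρ → ∀ (Z : Type) [TopologicalSpace Z] [T2Space Z] [MulAction L Z]
        [ContinuousSMul L Z],
        (∀ (D : Set X) (f : X → Z), (∀ g, ∀ x ∈ D, α.map g x ∈ D ∧ f (α.map g x) = ρ g • f x) →
          (∃ x ∈ D, ContinuousWithinAt f D x) → ∃ z, ∀ x ∈ D, f x = z) ∧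
        (Nonempty Z → ¬ ∃ h : Z → X, Continuous h ∧ ∀ g z, h (ρ g • z) = α.map g (h z))) ∧
      (∀ N : Subgroup G, N.Normal → (N : Set G).Infinite →
        ∀ P Q : Set X, IsClosed P → IsClosed Q → Disjoint P Q → (∃ x, x ∉ P ∧ x ∉ Q) →
        (interior P).Nonempty → (interior Q).Nonempty →
        (NotProper ρ ↔ ∀ W ∈ 𝓝 (1 : L), ∃ g ∈ N, (∀ x ∉ Q, α.map g x ∈ P) ∧ ρ g ∈ W))) ∧
    (∃ s, Loxodromic α s) ∧
    (∀ (R : Type) [NormedRing R] [NormOneClass R] (ρ : G →* Rˣ) (N : Subgroup G), N.Normal →
      (N : Set G).Infinite → ∀ s, Loxodromic α s →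
      (NotProper ρ ↔ ∃ h ∈ N, PingPong α ![s, h * s * h⁻¹] ∧
        NotProper (ρ.comp (Subgroup.closure {s, h * s * h⁻¹}).subtype))) := by
  refine ⟨?_, ?_, ?_⟩
  · intro L _ _ _ _ _ ρ
    have hne : Nonempty X := inferInstance
    refine ⟨?_, ?_, ?_⟩
    · tfae_have 1 → 2 := fun h => H72.In.ind_of_np (α := α.hom) hα hmin h
      tfae_have 2 → 3 := fun h m f W hW => H72.In.sch_of_ind (α := α.hom) h f W hW
      tfae_have 3 → 4 := fun h W hW => by
        obtain ⟨a, ha, haW⟩ := h 1 (fun _ => 1) (fun _ => W) (fun _ => by rw [map_one]; exact hW)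
        refine ⟨a 0, lox_iff.2 ?_, haW 0⟩
        have h2 : (fun _ : Fin 1 => a 0) = a := by
          ext i
          rw [Subsingleton.elim i 0]
        rw [h2]
        exact ha
      tfae_have 4 → 1 := fun h => H72.In.np_of_lox (α := α.hom) fun W hW => by
        obtain ⟨g, hg, hgW⟩ := h W hW
        exact ⟨g, lox_iff.1 hg, hgW⟩
      tfae_have 2 → 5 := fun h x l hl p hp =>
        H72.In.orb_of_ind (α := α.hom) h x p.1 hl hp.2
      tfae_have 5 → 1 := fun h => by
        obtain ⟨x₀⟩ := hne
        have h1 : (1 : L) ∈ closure (range ρ) := subset_closure ⟨1, map_one ρ⟩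
        exact H72.In.np_of_orb (α := α.hom) (x₀ := x₀) fun x => h x₀ 1 h1 ⟨mem_univ _, h1⟩
      tfae_have 1 → 6 := fun h => H72.In.not_pd_of_np (α := α.hom) h
      tfae_have 6 → 1 := fun h => H72.In.np_of_not_pd (α := α.hom) h
      tfae_have 1 → 7 := fun h Z _ _ _ => disj_of hα hmin h Z
      tfae_have 7 → 8 := fun h => h L
      tfae_have 8 → 1 := fun h => by
        obtain ⟨x₀⟩ := hne
        obtain ⟨Z', hZ'⟩ := h (closure (H72.In.orb α.hom ρ x₀ 1)) isClosed_closure
          (fun g x l hxl => H72.In.orb_inv hxl)
        have h1 : (x₀, (1 : L)) ∈ closure (H72.In.orb α.hom ρ x₀ 1) :=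
          subset_closure ⟨1, Prod.ext (α.map_one x₀) (by
            change ρ 1 * 1 = 1
            rw [map_one, mul_one])⟩
        refine H72.In.np_of_orb (α := α.hom) (x₀ := x₀) fun x => ?_
        rw [hZ'] at h1 ⊢
        exact ⟨mem_univ _, h1.2⟩
      tfae_finish
    · intro hρ Z _ _ _ _
      refine ⟨?_, ?_⟩
      · intro D f hf ⟨x₀, hxD, hx₀⟩
        -- the closure of the graph
        set R : Set (X × Z) := closure ((fun x => (x, f x)) '' D) with hRdef
        have hinv : ∀ g x z, (x, z) ∈ R → (α.map g x, ρ g • z) ∈ R := by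
          intro g x z hx
          have hc : Continuous fun p : X × Z => (α.map g p.1, ρ g • p.2) :=
            ((α.cont g).comp continuous_fst).prodMk (continuous_snd.const_smul (ρ g))
          have h1 : (fun p : X × Z => (α.map g p.1, ρ g • p.2)) '' ((fun x => (x, f x)) '' D) ⊆
              (fun x => (x, f x)) '' D := by
            rintro _ ⟨_, ⟨y, hy, rfl⟩, rfl⟩
            exact ⟨α.map g y, (hf g y hy).1, Prod.ext rfl (hf g y hy).2⟩
          have h2 := image_closure_subset_closure_image hc (s := (fun x => (x, f x)) '' D)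
          exact closure_mono h1 (h2 (mem_image_of_mem _ hx))
        have h3 : ∀ z, (x₀, z) ∈ R → z = f x₀ := by
          intro z hz
          by_contra hne
          obtain ⟨U, W, hU, hW, hzU, hfW, hd⟩ := t2_separation hne
          have h4 : f ⁻¹' W ∈ 𝓝[D] x₀ := hx₀ (hW.mem_nhds hfW)
          obtain ⟨V, hV, hVD⟩ := mem_nhdsWithin_iff_exists_mem_nhds_inter.1 h4
          have h5 : V ×ˢ U ∈ 𝓝 (x₀, z) := prod_mem_nhds hV (hU.mem_nhds hzU)
          obtain ⟨p, hp, ⟨y, hy, rfl⟩⟩ := mem_closure_iff_nhds.1 hz _ h5
          exact disjoint_left.1 hd hp.2 (hVD ⟨hp.1, hy⟩)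
        refine ⟨f x₀, fun x hx => ?_⟩
        exact h3 (f x) (prod_of hα hmin hρ isClosed_closure hinv x x₀ (f x)
          (subset_closure ⟨x, hx, rfl⟩))
      · rintro ⟨z⟩ ⟨h, hc, he⟩
        have hR : IsClosed {p : X × Z | p.1 = h p.2} :=
          isClosed_eq continuous_fst (hc.comp continuous_snd)
        obtain ⟨x, hx⟩ := exists_ne (h z)
        have h1 := prod_of hα hmin hρ hR (fun g x z (hxz : x = h z) => by
          show α.map g x = h (ρ g • z)
          rw [he, hxz]) (h z) x z rfl
        exact hx h1
    · intro N hn hN P Q hP hQ hd hx hPi hQi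
      constructor
      · intro h W hW
        obtain ⟨g, hgN, hgW, hg⟩ := H72.In.ind_sub_one (α := α.hom) hα hmin hn hN
          (H72.In.ind_of_np (α := α.hom) hα hmin h) isOpen_interior hPi isOpen_interior hQi hW
        exact ⟨g, hgN, fun x hx => interior_subset (hg x fun h0 => hx (interior_subset h0)), hgW⟩
      · intro h
        refine H72.In.np_of_pq (α := α.hom) hP hQ hd hx fun W hW => ?_
        obtain ⟨g, -, hg⟩ := h W hW
        exact ⟨g, hg⟩
  · obtain ⟨s, hs⟩ := H72.In.exists_lox (α := α.hom) hα hmin
    exact ⟨s, lox_iff.2 hs⟩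
  · intro R _ _ ρ N hn hN s hs
    constructor
    · intro h
      obtain ⟨t, htN, ht, h1⟩ := H72.In.exists_bad_conj' (α := α.hom) hα hmin hn hN norm_one.le h
        (lox_iff.1 hs)
      refine ⟨t, htN, ht, ?_⟩
      have hr : range ![s, t * s * t⁻¹] = {s, t * s * t⁻¹} := by
        ext g
        simp [eq_comm, or_comm]
      rw [hr] at h1
      exact h1
    · rintro ⟨a, -, -, g, u, hg, hu⟩
      exact ⟨fun k => g k, u, fun j k hjk => hg (Subtype.ext hjk), hu⟩

end Pool.Agent.Results.MP_04c03c_gt.NonproperDisjoint
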